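import Pool.Agent.H30.FA.TA

/-!
# The moment of order one and the commutator (row COM of fas_modules)
-/

set_option autoImplicit false

open Pool.Agent.H30.FA

namespace Pool.Agent.H42.FA

section

variable {κ : ℝ} {J E : Type} [Fintype J] [NormedAddCommGroup E] [InnerProductSpace ℂ E] {d : ℕ}
  (C : Cfg κ J E d)

theorem qq_eq (hBAS : T_BAS) (g : E ≃ₗᵢ[ℂ] E) : qq C.t C.x 1 g =
    ∑ a, ∑ b, ‖inner ℂ (C.e a) (g (C.e b))‖ ^ 2 * (C.r a * C.r b) := by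
  obtain ⟨-, -, -, -, -, hl, hr, -⟩ := hBAS κ J E d C
  have hg : ∀ x y : E, ‖inner ℂ x (g y)‖ = ‖inner ℂ y (g.symm x)‖ := by
    intro x y
    rw [norm_inner_symm, ← g.inner_map_map y (g.symm x), g.apply_symm_apply]
  have h1 : qq C.t C.x 1 g = ∑ k, C.t k * ∑ a, C.r a * ‖inner ℂ (C.e a) (g (C.x k))‖ ^ 2 := by
    unfold qq
    rw [Finset.sum_comm]
    refine Finset.sum_congr rfl fun k _ => ?_
    have h2 := hr (g (C.x k))
    have h3 : ∑ a, C.r a * ‖inner ℂ (C.e a) (g (C.x k))‖ ^ 2 =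
        ∑ a, C.r a * ‖inner ℂ (g (C.x k)) (C.e a)‖ ^ 2 :=
      Finset.sum_congr rfl fun a _ => by rw [norm_inner_symm]
    rw [h3, ← h2, Finset.mul_sum]
    refine Finset.sum_congr rfl fun i _ => ?_
    rw [mul_one]
    ring
  rw [h1]
  have h4 : ∀ k, C.t k * ∑ a, C.r a * ‖inner ℂ (C.e a) (g (C.x k))‖ ^ 2 =
      ∑ a, C.r a * (C.t k * ‖inner ℂ (C.x k) (g.symm (C.e a))‖ ^ 2) := by
    intro k
    rw [Finset.mul_sum]
    refine Finset.sum_congr rfl fun a _ => ?_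
    rw [hg]
    ring
  rw [Finset.sum_congr rfl fun k _ => h4 k, Finset.sum_comm]
  refine Finset.sum_congr rfl fun a _ => ?_
  rw [← Finset.mul_sum, hr, Finset.mul_sum]
  refine Finset.sum_congr rfl fun b _ => ?_
  rw [hg, norm_inner_symm]
  ring

theorem row_sum (hBAS : T_BAS) (g : E ≃ₗᵢ[ℂ] E) (a : Fin d) :
    ∑ b, ‖inner ℂ (C.e a) (g (C.e b))‖ ^ 2 = 1 := by
  obtain ⟨-, -, -, -, -, -, -, -, -, hp, -⟩ := hBAS κ J E d C
  have h1 := hp (g.symm (C.e a))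
  rw [g.symm.norm_map, C.e.norm_eq_one, one_pow] at h1
  rw [h1]
  refine Finset.sum_congr rfl fun b _ => ?_
  rw [← g.inner_map_map (g.symm (C.e a)) (C.e b), g.apply_symm_apply]

theorem col_sum (hBAS : T_BAS) (g : E ≃ₗᵢ[ℂ] E) (b : Fin d) :
    ∑ a, ‖inner ℂ (C.e a) (g (C.e b))‖ ^ 2 = 1 := by
  obtain ⟨-, -, -, -, -, -, -, -, -, hp, -⟩ := hBAS κ J E d C
  have h1 := hp (g (C.e b))
  rw [g.norm_map, C.e.norm_eq_one, one_pow] at h1
  rw [h1]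
  refine Finset.sum_congr rfl fun a _ => ?_
  rw [norm_inner_symm]

theorem qq_one (hBAS : T_BAS) : qq C.t C.x 1 (1 : E ≃ₗᵢ[ℂ] E) = ∑ a, C.r a ^ 2 := by
  rw [qq_eq C hBAS]
  refine Finset.sum_congr rfl fun a _ => ?_
  rw [Finset.sum_eq_single a]
  · change ‖inner ℂ (C.e a) (C.e a)‖ ^ 2 * (C.r a * C.r a) = _
    rw [orthonormal_iff_ite.1 C.e.orthonormal a a, if_pos rfl, norm_one]
    ring
  · intro b _ hb
    change ‖inner ℂ (C.e a) (C.e b)‖ ^ 2 * (C.r a * C.r b) = _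
    rw [orthonormal_iff_ite.1 C.e.orthonormal a b, if_neg (Ne.symm hb), norm_zero]
    ring
  · intro h
    exact absurd (Finset.mem_univ a) h

end

theorem pf_COM (hBAS : T_BAS) : T_COM := by
  classical
  intro κ J E _ _ _ d C g
  rw [qq_one C hBAS, qq_eq C hBAS]
  have h1 : ∑ a, ∑ b, ‖inner ℂ (C.e a) (g (C.e b))‖ ^ 2 * (C.r a - C.r b) ^ 2 =
      ∑ a, ∑ b, ‖inner ℂ (C.e a) (g (C.e b))‖ ^ 2 * C.r a ^ 2 +
      ∑ a, ∑ b, ‖inner ℂ (C.e a) (g (C.e b))‖ ^ 2 * C.r b ^ 2 -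
      2 * ∑ a, ∑ b, ‖inner ℂ (C.e a) (g (C.e b))‖ ^ 2 * (C.r a * C.r b) := by
    rw [Finset.mul_sum, ← Finset.sum_add_distrib, ← Finset.sum_sub_distrib]
    refine Finset.sum_congr rfl fun a _ => ?_
    rw [Finset.mul_sum, ← Finset.sum_add_distrib, ← Finset.sum_sub_distrib]
    refine Finset.sum_congr rfl fun b _ => ?_
    ring
  have h2 : ∑ a, ∑ b, ‖inner ℂ (C.e a) (g (C.e b))‖ ^ 2 * C.r a ^ 2 = ∑ a, C.r a ^ 2 := by
    refine Finset.sum_congr rfl fun a _ => ?_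
    rw [← Finset.sum_mul, row_sum C hBAS, one_mul]
  have h3 : ∑ a, ∑ b, ‖inner ℂ (C.e a) (g (C.e b))‖ ^ 2 * C.r b ^ 2 = ∑ a, C.r a ^ 2 := by
    rw [Finset.sum_comm]
    refine Finset.sum_congr rfl fun b _ => ?_
    rw [← Finset.sum_mul, col_sum C hBAS, one_mul]
  rw [h1, h2, h3]
  ring

end Pool.Agent.H42.FA
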