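import Pool.Agent.H30.FA.TA

/-!
# Overlaps of a configuration with its image (row OVL of fas_modules)
-/

set_option autoImplicit false

open Pool.Agent.H30.FA

namespace Pool.Agent.H42.FA

section

variable {J E : Type} [Fintype J] [NormedAddCommGroup E] [InnerProductSpace ℂ E]

theorem binom (t : J → ℝ) (x : J → E) (h : E ≃ₗᵢ[ℂ] E) (D : ℕ) :
    ∑ i, ∑ k, t i * t k * (1 - ‖inner ℂ (x i) (h (x k))‖ ^ 2) ^ D =
      ∑ j ∈ Finset.range (D + 1), (-1) ^ j * (D.choose j : ℝ) * qq t x j h := by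
  have h1 : ∀ i k, t i * t k * (1 - ‖inner ℂ (x i) (h (x k))‖ ^ 2) ^ D =
      ∑ j ∈ Finset.range (D + 1), (-1) ^ j * (D.choose j : ℝ) *
        (t i * t k * ‖inner ℂ (x i) (h (x k))‖ ^ (2 * j)) := by
    intro i k
    rw [sub_eq_neg_add, add_pow, Finset.mul_sum]
    refine Finset.sum_congr rfl fun j _ => ?_
    rw [one_pow, neg_pow, ← pow_mul]
    ring
  simp_rw [h1]
  unfold qq
  have h2 : ∀ i, ∑ k, ∑ j ∈ Finset.range (D + 1), (-1) ^ j * (D.choose j : ℝ) *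
      (t i * t k * ‖inner ℂ (x i) (h (x k))‖ ^ (2 * j)) =
      ∑ j ∈ Finset.range (D + 1), ∑ k, (-1) ^ j * (D.choose j : ℝ) *
      (t i * t k * ‖inner ℂ (x i) (h (x k))‖ ^ (2 * j)) := fun i => Finset.sum_comm
  rw [Finset.sum_congr rfl fun i _ => h2 i, Finset.sum_comm]
  refine Finset.sum_congr rfl fun j _ => ?_
  rw [Finset.mul_sum]
  refine Finset.sum_congr rfl fun i _ => ?_
  rw [Finset.mul_sum]

theorem sq_le_one' {x y : E} (hx : ‖x‖ = 1) (hy : ‖y‖ = 1) : ‖inner ℂ x y‖ ^ 2 ≤ 1 := by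
  have h1 := norm_inner_le_norm (𝕜 := ℂ) x y
  rw [hx, hy, one_mul] at h1
  exact pow_le_one₀ (norm_nonneg _) h1

end

theorem pf_OVL (hPDK : T_PDK) : T_OVL := by
  classical
  intro κ κ₀ J E _ _ _ d C g D ε h0 h1 hε hD m
  have hpos : 0 < (1 - κ₀) ^ D := pow_pos (by linarith) _
  have hnx : ∀ (h : E ≃ₗᵢ[ℂ] E) i, ‖h (C.x i)‖ = 1 := by
    intro h i
    rw [h.norm_map, C.norm_x]
  have ht : ∀ i k, 0 ≤ C.t i * C.t k := fun i k => mul_nonneg (C.t_nonneg i) (C.t_nonneg k)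
  rw [le_div_iff₀ hpos]
  -- the left side
  have hL : (∑ i, ∑ k, (if ‖inner ℂ ((g ^ m) (C.x i)) (C.x k)‖ ^ 2 < κ₀ then C.t i * C.t k
      else 0)) * (1 - κ₀) ^ D ≤
      ∑ i, ∑ k, C.t i * C.t k * (1 - ‖inner ℂ (C.x i) ((g ^ m) (C.x k))‖ ^ 2) ^ D := by
    rw [Finset.sum_comm (f := fun i k => C.t i * C.t k *
      (1 - ‖inner ℂ (C.x i) ((g ^ m) (C.x k))‖ ^ 2) ^ D), Finset.sum_mul]
    refine Finset.sum_le_sum fun i _ => ?_
    rw [Finset.sum_mul]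
    refine Finset.sum_le_sum fun k _ => ?_
    rw [norm_inner_symm ((g ^ m) (C.x i)) (C.x k)]
    have h2 : ‖inner ℂ (C.x k) ((g ^ m) (C.x i))‖ ^ 2 ≤ 1 :=
      sq_le_one' (C.norm_x k) (hnx (g ^ m) i)
    split_ifs with h3
    · rw [mul_comm (C.t k)]
      refine mul_le_mul_of_nonneg_left ?_ (ht i k)
      exact pow_le_pow_left₀ (by linarith) (by linarith) _
    · rw [zero_mul]
      exact mul_nonneg (ht k i) (pow_nonneg (by linarith) _)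
  refine hL.trans ?_
  rw [binom]
  have hB := binom C.t C.x (1 : E ≃ₗᵢ[ℂ] E) D
  have hq : ∀ j ∈ Finset.range (D + 1), (-1) ^ j * (D.choose j : ℝ) * qq C.t C.x j (g ^ m) ≤
      (-1) ^ j * (D.choose j : ℝ) * qq C.t C.x j 1 + (D.choose j : ℝ) * ((m : ℝ) ^ 2 * ε) := by
    intro j hj
    have hj' : j ≤ D := Nat.lt_succ_iff.1 (Finset.mem_range.1 hj)
    have e1 := (hPDK J E d C.e C.t C.x j (g ^ m)).1
    have e2 := (hPDK J E d C.e C.t C.x j g).2 m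
    have e3 := hD j hj'
    have e4 : (m : ℝ) ^ 2 * (qq C.t C.x j 1 - qq C.t C.x j g) ≤ (m : ℝ) ^ 2 * ε :=
      mul_le_mul_of_nonneg_left (by linarith) (sq_nonneg _)
    have e5 : (0 : ℝ) ≤ (D.choose j : ℝ) := Nat.cast_nonneg _
    have e6 : (D.choose j : ℝ) * (qq C.t C.x j 1 - qq C.t C.x j (g ^ m)) ≤
        (D.choose j : ℝ) * ((m : ℝ) ^ 2 * ε) := mul_le_mul_of_nonneg_left (by linarith) e5
    have e7 : 0 ≤ (D.choose j : ℝ) * (qq C.t C.x j 1 - qq C.t C.x j (g ^ m)) :=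
      mul_nonneg e5 e1
    rcases neg_one_pow_eq_or ℝ j with h4 | h4
    · rw [h4]
      linarith
    · rw [h4]
      linarith
  have hsum : ∑ j ∈ Finset.range (D + 1), (D.choose j : ℝ) * ((m : ℝ) ^ 2 * ε) =
      2 ^ D * (m : ℝ) ^ 2 * ε := by
    rw [← Finset.sum_mul]
    have h5 : (∑ j ∈ Finset.range (D + 1), (D.choose j : ℝ)) = 2 ^ D := by
      exact_mod_cast Nat.sum_range_choose D
    rw [h5]
    ring
  have hone : ∑ i, ∑ k, C.t i * C.t k * (1 - ‖inner ℂ (C.x i) ((1 : E ≃ₗᵢ[ℂ] E) (C.x k))‖ ^ 2)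
      ^ D ≤ (1 - κ) ^ D := by
    have h6 : ∑ i, C.t i * ∑ k, C.t k * (1 - κ) ^ D = (1 - κ) ^ D := by
      rw [← Finset.sum_mul, ← Finset.sum_mul, C.t_sum, one_mul, one_mul]
    rw [← h6]
    refine Finset.sum_le_sum fun i _ => ?_
    rw [Finset.mul_sum]
    refine Finset.sum_le_sum fun k _ => ?_
    by_cases hi : C.t i = 0
    · rw [hi, zero_mul, zero_mul, zero_mul]
    by_cases hk : C.t k = 0
    · rw [hk, mul_zero, zero_mul, zero_mul, mul_zero]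
    have h7 := C.adj i k hi hk
    have h8 : ‖inner ℂ (C.x i) (C.x k)‖ ^ 2 ≤ 1 := sq_le_one' (C.norm_x i) (C.norm_x k)
    change C.t i * C.t k * (1 - ‖inner ℂ (C.x i) (C.x k)‖ ^ 2) ^ D ≤
      C.t i * (C.t k * (1 - κ) ^ D)
    rw [← mul_assoc]
    refine mul_le_mul_of_nonneg_left ?_ (ht i k)
    exact pow_le_pow_left₀ (by linarith) (by linarith) _
  calc ∑ j ∈ Finset.range (D + 1), (-1) ^ j * (D.choose j : ℝ) * qq C.t C.x j (g ^ m)
      ≤ ∑ j ∈ Finset.range (D + 1), ((-1) ^ j * (D.choose j : ℝ) * qq C.t C.x j 1 +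
        (D.choose j : ℝ) * ((m : ℝ) ^ 2 * ε)) := Finset.sum_le_sum hq
    _ = (∑ i, ∑ k, C.t i * C.t k *
        (1 - ‖inner ℂ (C.x i) ((1 : E ≃ₗᵢ[ℂ] E) (C.x k))‖ ^ 2) ^ D) +
        2 ^ D * (m : ℝ) ^ 2 * ε := by
        rw [Finset.sum_add_distrib, hsum, hB]
    _ ≤ (1 - κ) ^ D + 2 ^ D * (m : ℝ) ^ 2 * ε := by linarith

end Pool.Agent.H42.FA
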