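import Pool.Agent.H30.FA.TA

/-!
# Basic facts on configurations (row BAS of fas_modules)
-/

set_option autoImplicit false

open Pool.Agent.H30.FA

namespace Pool.Agent.H42.FA

section

variable {κ : ℝ} {J E : Type} [Fintype J] [NormedAddCommGroup E] [InnerProductSpace ℂ E] {d : ℕ}
  (C : Cfg κ J E d)

theorem inner_sq (x y : E) : inner ℂ x y * inner ℂ y x = ((‖inner ℂ x y‖ ^ 2 : ℝ) : ℂ) := by
  rw [← inner_conj_symm y x, Complex.mul_conj']
  push_cast
  rfl

theorem r_eq (a : Fin d) : C.r a = ∑ j, C.t j * ‖inner ℂ (C.e a) (C.x j)‖ ^ 2 := by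
  have h1 := C.diag a a
  rw [if_pos rfl] at h1
  apply Complex.ofReal_injective
  rw [← h1]
  push_cast
  refine Finset.sum_congr rfl fun j _ => ?_
  rw [inner_sq]
  push_cast
  rfl

theorem r_nonneg (a : Fin d) : 0 ≤ C.r a := by
  rw [r_eq]
  exact Finset.sum_nonneg fun j _ => mul_nonneg (C.t_nonneg j) (sq_nonneg _)

theorem r_sum : ∑ a, C.r a = 1 := by
  have h1 : ∑ a, C.r a = ∑ a, ∑ j, C.t j * ‖inner ℂ (C.e a) (C.x j)‖ ^ 2 :=
    Finset.sum_congr rfl fun a _ => r_eq C a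
  rw [h1, Finset.sum_comm, ← C.t_sum]
  refine Finset.sum_congr rfl fun j _ => ?_
  rw [← Finset.mul_sum, OrthonormalBasis.sum_sq_norm_inner_right, C.norm_x]
  ring

theorem r_le (a : Fin d) : C.r a ≤ 1 := by
  rw [← r_sum C]
  exact Finset.single_le_sum (fun b _ => r_nonneg C b) (Finset.mem_univ a)

include C in
theorem kap : κ ≤ 1 := by
  obtain ⟨j, hj⟩ : ∃ j, C.t j ≠ 0 := by
    by_contra hcon
    push Not at hcon
    have h1 := C.t_sum
    rw [Finset.sum_congr rfl fun j _ => hcon j, Finset.sum_const_zero] at h1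
    exact zero_ne_one h1
  have h1 := C.adj j j hj hj
  rw [inner_self_eq_norm_sq_to_K, C.norm_x] at h1
  simpa using h1

theorem mom_left (z : E) : ∑ j, C.t j * ‖inner ℂ z (C.x j)‖ ^ 2 =
    ∑ a, C.r a * ‖inner ℂ z (C.e a)‖ ^ 2 := by
  apply Complex.ofReal_injective
  have h1 : ∀ j, ((C.t j * ‖inner ℂ z (C.x j)‖ ^ 2 : ℝ) : ℂ) =
      ∑ a, ∑ b, (inner ℂ z (C.e a) * inner ℂ (C.e b) z) * ((C.t j : ℂ) *
        (inner ℂ (C.e a) (C.x j) * inner ℂ (C.x j) (C.e b))) := by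
    intro j
    rw [Complex.ofReal_mul, ← inner_sq, ← C.e.sum_inner_mul_inner z (C.x j),
      ← C.e.sum_inner_mul_inner (C.x j) z, Finset.sum_mul_sum, Finset.mul_sum]
    refine Finset.sum_congr rfl fun a _ => ?_
    rw [Finset.mul_sum]
    refine Finset.sum_congr rfl fun b _ => ?_
    ring
  have h2 : ∀ a, ((C.r a * ‖inner ℂ z (C.e a)‖ ^ 2 : ℝ) : ℂ) =
      ∑ b, (inner ℂ z (C.e a) * inner ℂ (C.e b) z) * (if a = b then (C.r a : ℂ) else 0) := by
    intro a
    rw [Complex.ofReal_mul, ← inner_sq]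
    simp only [mul_ite, mul_zero, Finset.sum_ite_eq, Finset.mem_univ, if_true]
    ring
  rw [Complex.ofReal_sum, Complex.ofReal_sum, Finset.sum_congr rfl fun j _ => h1 j,
    Finset.sum_congr rfl fun a _ => h2 a, Finset.sum_comm]
  refine Finset.sum_congr rfl fun a _ => ?_
  rw [Finset.sum_comm]
  refine Finset.sum_congr rfl fun b _ => ?_
  rw [← Finset.mul_sum, C.diag a b]

theorem mom_right (z : E) : ∑ j, C.t j * ‖inner ℂ (C.x j) z‖ ^ 2 =
    ∑ a, C.r a * ‖inner ℂ z (C.e a)‖ ^ 2 := by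
  rw [← mom_left]
  refine Finset.sum_congr rfl fun j _ => ?_
  rw [norm_inner_symm]

theorem kap_sq : κ ≤ ∑ a, C.r a ^ 2 := by
  have h1 : ∑ a, C.r a ^ 2 = ∑ i, C.t i * ∑ k, C.t k * ‖inner ℂ (C.x i) (C.x k)‖ ^ 2 := by
    have h2 : ∀ i, C.t i * ∑ k, C.t k * ‖inner ℂ (C.x i) (C.x k)‖ ^ 2 =
        ∑ a, C.r a * (C.t i * ‖inner ℂ (C.e a) (C.x i)‖ ^ 2) := by
      intro i
      rw [mom_left, Finset.mul_sum]
      refine Finset.sum_congr rfl fun a _ => ?_
      rw [norm_inner_symm]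
      ring
    rw [Finset.sum_congr rfl fun i _ => h2 i, Finset.sum_comm]
    refine Finset.sum_congr rfl fun a _ => ?_
    rw [← Finset.mul_sum, ← r_eq, sq]
  have h3 : ∑ i, C.t i * ∑ k, C.t k * κ = κ := by
    rw [← Finset.sum_mul, ← Finset.sum_mul, C.t_sum, one_mul, one_mul]
  rw [h1]
  refine h3.symm.le.trans (Finset.sum_le_sum fun i _ => ?_)
  by_cases hi : C.t i = 0
  · rw [hi, zero_mul, zero_mul]
  refine mul_le_mul_of_nonneg_left (Finset.sum_le_sum fun k _ => ?_) (C.t_nonneg i)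
  by_cases hk : C.t k = 0
  · rw [hk, zero_mul, zero_mul]
  exact mul_le_mul_of_nonneg_left (C.adj i k hi hk) (C.t_nonneg k)

end

theorem pf_BAS : T_BAS := by
  classical
  intro κ J E _ _ _ d C
  refine ⟨r_eq C, r_nonneg C, r_le C, r_sum C, kap C, mom_left C, mom_right C, ?_, ?_, ?_,
    kap_sq C⟩
  · intro δ _
    rw [← r_sum C, ← nsmul_eq_mul, ← Finset.sum_const]
    calc ∑ _a ∈ Finset.univ.filter fun a => δ ≤ C.r a, δ
        ≤ ∑ a ∈ Finset.univ.filter fun a => δ ≤ C.r a, C.r a :=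
          Finset.sum_le_sum fun a ha => (Finset.mem_filter.1 ha).2
      _ ≤ ∑ a, C.r a := Finset.sum_le_sum_of_subset_of_nonneg (Finset.filter_subset _ _)
          fun a _ _ => r_nonneg C a
  · intro z y
    exact (C.e.sum_inner_mul_inner z y).symm
  · intro z
    exact (C.e.sum_sq_norm_inner_left z).symm

end Pool.Agent.H42.FA
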