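import Pool.Agent.H30.FA.TC

/-!
# Lipschitz weights on the neighbourhood (row WGT of fas_modules)
-/

set_option autoImplicit false

open Pool.Agent.H30.FA Pool.Agent.H59 Pool.Agent.H48.FR Pool.Agent.H58.FL

namespace Pool.Agent.H42.FA

theorem dist_kur {M : Type} [MetricSpace M] [BoundedSpace M] (m m' : M) :
    dist m m' ≤ dist (kur M m) (kur M m') := by
  rw [dist_eq_norm (kur M m)]
  have h1 := lp.norm_apply_le_norm (p := ⊤) (by simp) (kur M m - kur M m') m'
  rw [lp.coeFn_sub, Pi.sub_apply, kur_apply, kur_apply, dist_self, sub_zero,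
    Real.norm_of_nonneg dist_nonneg] at h1
  exact h1

/-- the quotients by the sum are Lipschitz -/
theorem quot_lip {N : ℕ} (a b : Fin N → ℝ) (D s : ℝ) (hb : ∀ i, 0 ≤ b i)
    (hD : ∀ i, |a i - b i| ≤ D) (hs : 0 < s) (ha : s ≤ ∑ i, a i) (hb' : s ≤ ∑ i, b i) :
    ∑ i, |a i / (∑ j, a j) - b i / (∑ j, b j)| ≤ 2 * N / s * D := by
  have h1 : 0 < ∑ i, a i := hs.trans_le ha
  have h2 : 0 < ∑ i, b i := hs.trans_le hb'
  have h3 : |(∑ i, b i) - ∑ i, a i| ≤ N * D := by
    rw [← Finset.sum_sub_distrib]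
    refine (Finset.abs_sum_le_sum_abs _ _).trans ?_
    refine (Finset.sum_le_card_nsmul _ _ D fun i _ => ?_).trans ?_
    · rw [abs_sub_comm]
      exact hD i
    · rw [Finset.card_univ, Fintype.card_fin, nsmul_eq_mul]
  have h4 : ∀ i, |a i / (∑ j, a j) - b i / (∑ j, b j)| ≤
      D / (∑ j, a j) + b i * (N * D / ((∑ j, a j) * ∑ j, b j)) := by
    intro i
    have h5 : a i / (∑ j, a j) - b i / (∑ j, b j) = (a i - b i) / (∑ j, a j) +
        b i * (((∑ j, b j) - ∑ j, a j) / ((∑ j, a j) * ∑ j, b j)) := by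
      field_simp
      ring
    rw [h5]
    refine (abs_add_le _ _).trans (add_le_add ?_ ?_)
    · rw [abs_div, abs_of_pos h1]
      exact div_le_div_of_nonneg_right (hD i) h1.le
    · rw [abs_mul, abs_of_nonneg (hb i), abs_div, abs_of_pos (mul_pos h1 h2)]
      exact mul_le_mul_of_nonneg_left (div_le_div_of_nonneg_right h3 (mul_pos h1 h2).le) (hb i)
  refine (Finset.sum_le_sum fun i _ => h4 i).trans ?_
  rw [Finset.sum_add_distrib, ← Finset.sum_mul, Finset.sum_const, Finset.card_univ,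
    Fintype.card_fin, nsmul_eq_mul]
  have h6 : (∑ i, b i) * (N * D / ((∑ j, a j) * ∑ j, b j)) = N * D / ∑ j, a j := by
    field_simp
  rw [h6]
  have h7 : 0 ≤ N * D := by
    rcases Nat.eq_zero_or_pos N with h | h
    · subst h
      simp
    · exact mul_nonneg (Nat.cast_nonneg _) ((abs_nonneg _).trans (hD ⟨0, h⟩))
  have h8 : (N : ℝ) * (D / ∑ j, a j) = N * D / ∑ j, a j := by ring
  rw [h8]
  have h9 : N * D / ∑ j, a j ≤ N * D / s := div_le_div_of_nonneg_left h7 hs ha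
  calc N * D / ∑ j, a j + N * D / ∑ j, a j ≤ N * D / s + N * D / s := add_le_add h9 h9
    _ = 2 * N / s * D := by ring

theorem pf_WGT : T_WGT := by
  classical
  intro M _ _ _ _ ε δ hε hδ
  obtain ⟨t, -, htf, ht⟩ := finite_cover_balls_of_compact (isCompact_univ (X := M)) (half_pos hδ)
  have hcov : ∀ m : M, ∃ y ∈ t, dist m y < δ / 2 := by
    intro m
    have := ht (Set.mem_univ m)
    simpa [Metric.mem_ball] using this
  have : Fintype t := htf.fintype
  obtain ⟨N, ⟨e⟩⟩ : ∃ N : ℕ, Nonempty (Fin N ≃ t) :=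
    ⟨Fintype.card t, ⟨(Fintype.equivFin t).symm⟩⟩
  obtain ⟨x, hx⟩ : ∃ x : Fin N → M, ∀ i, x i = (e i : M) := ⟨fun i => (e i : M), fun _ => rfl⟩
  obtain ⟨ψ, hψ⟩ : ∃ ψ : UE M ε → Fin N → ℝ,
      ∀ f i, ψ f i = max 0 (ε + δ - dist f.1 (kur M (x i))) :=
    ⟨fun f i => max 0 (ε + δ - dist f.1 (kur M (x i))), fun _ _ => rfl⟩
  have hψ0 : ∀ f i, 0 ≤ ψ f i := fun f i => by rw [hψ]; exact le_max_left _ _
  have hpos : ∀ f, δ / 2 ≤ ∑ i, ψ f i := by
    intro f
    have hf : f.1 ∈ Metric.thickening ε (Set.range (kur M)) := f.2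
    obtain ⟨_, ⟨m, rfl⟩, hm⟩ := Metric.mem_thickening_iff.1 hf
    obtain ⟨y, hy, hmy⟩ := hcov m
    have hi : x (e.symm ⟨y, hy⟩) = y := by rw [hx, Equiv.apply_symm_apply]
    refine le_trans ?_ (Finset.single_le_sum (f := fun i => ψ f i)
      (fun i _ => hψ0 f i) (Finset.mem_univ (e.symm ⟨y, hy⟩)))
    change δ / 2 ≤ ψ f (e.symm ⟨y, hy⟩)
    rw [hψ, hi]
    refine le_max_of_le_right ?_
    have h1 := dist_triangle f.1 (kur M m) (kur M y)
    have h2 := dist_kur_le m y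
    linarith
  have hsup : ∀ f i, ψ f i / ∑ j, ψ f j ≠ 0 → dist f.1 (kur M (x i)) < ε + δ := by
    intro f i hi
    have h1 : ψ f i ≠ 0 := by
      intro h
      rw [h, zero_div] at hi
      exact hi rfl
    have h2 : 0 < ψ f i := lt_of_le_of_ne (hψ0 f i) (Ne.symm h1)
    rw [hψ] at h2
    rcases lt_max_iff.1 h2 with h | h
    · exact absurd h (lt_irrefl _)
    · linarith
  refine ⟨N, x, fun f i => ψ f i / ∑ j, ψ f j, 2 * N / (δ / 2), by positivity, ?_, ?_, ?_, ?_⟩
  · intro f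
    have h1 : 0 < ∑ j, ψ f j := (half_pos hδ).trans_le (hpos f)
    refine ⟨fun i => div_nonneg (hψ0 f i) h1.le, ?_⟩
    rw [← Finset.sum_div]
    exact div_self h1.ne'
  · intro f i j hi hj
    have h1 := hsup f i hi
    have h2 := hsup f j hj
    have h3 := dist_kur (x i) (x j)
    have h4 := dist_triangle (kur M (x i)) f.1 (kur M (x j))
    rw [dist_comm (kur M (x i)) f.1] at h4
    linarith
  · intro hε' m i hi
    have h1 := hsup (kf M ε hε' m) i hi
    have h2 := dist_kur (x i) m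
    have h3 : dist (kf M ε hε' m).1 (kur M (x i)) = dist (kur M (x i)) (kur M m) :=
      dist_comm _ _
    linarith
  · intro f g
    refine quot_lip (ψ f) (ψ g) (dist f.1 g.1) (δ / 2) (hψ0 g) (fun i => ?_) (half_pos hδ)
      (hpos f) (hpos g)
    rw [hψ, hψ, max_comm 0 (ε + δ - dist f.1 (kur M (x i))),
      max_comm 0 (ε + δ - dist g.1 (kur M (x i)))]
    refine (abs_max_sub_max_le_abs (ε + δ - dist f.1 (kur M (x i)))
      (ε + δ - dist g.1 (kur M (x i))) 0).trans ?_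
    have h1 : ε + δ - dist f.1 (kur M (x i)) - (ε + δ - dist g.1 (kur M (x i))) =
        dist g.1 (kur M (x i)) - dist f.1 (kur M (x i)) := by ring
    rw [h1, dist_comm f.1 g.1]
    exact abs_dist_sub_le _ _ _

end Pool.Agent.H42.FA
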